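import Mathlib
import Pool.Agent.KS6_1.RD.RDGam

set_option autoImplicit false

/-!
# Property RD and isometric Cayley graphs

For every finite set `X` with at least two elements there is one finitely generated group `Γ` with
property RD such that every abelian group structure on `X` gives a group `Λ` with an isometric
Cayley graph which contains all the powers `X ^ n` in the balls of radius `2 n` and for which even
every estimate `‖f‖_op ≤ C ‖f w(ℓ)‖_2` with a subexponential weight `w` fails.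
-/

namespace Pool.Agent.Results.MP_fb096d_an.AllAbelianTwists

/-- The word length of `g` with respect to `S`: the least `n` such that `g` is a product of
`n` elements of `S`. -/
noncomputable def wordLength {G : Type} [Group G] (S : Set G) (g : G) : ℕ :=
  sInf {n : ℕ | ∃ l : List G, l.length = n ∧ (∀ a ∈ l, a ∈ S) ∧ l.prod = g}

/-- `S` is a finite symmetric generating set of `G`. -/
def IsFinSymmGen {G : Type} [Group G] (S : Set G) : Prop :=
  S.Finite ∧ (∀ a ∈ S, a⁻¹ ∈ S) ∧ Subgroup.closure S = ⊤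

/-- The Cayley graph of `G` with respect to `S`. -/
def cayleyGraph {G : Type} [Group G] (S : Set G) : SimpleGraph G where
  Adj g h := g ≠ h ∧ (g⁻¹ * h ∈ S ∨ h⁻¹ * g ∈ S)
  symm := ⟨fun _ _ h => ⟨h.1.symm, h.2.symm⟩⟩
  loopless := ⟨fun _ h => h.1 rfl⟩

/-- The weighted norm `(∑ |f(g)|² w(ℓ(g))²)^{1/2}`. -/
noncomputable def weightedNorm {G : Type} [Group G] (S : Set G) (w : ℕ → ℝ) (f : G →₀ ℂ) : ℝ :=
  Real.sqrt (∑ g ∈ f.support, ‖f g‖ ^ 2 * w (wordLength S g) ^ 2)

/-- Left convolution by `f`. -/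
noncomputable def conv {G : Type} [Group G] (f : G →₀ ℂ) (ξ : G → ℂ) (x : G) : ℂ :=
  ∑ y ∈ f.support, f y * ξ (y⁻¹ * x)

/-- Left convolution by `f` is a bounded operator on `ℓ²(G)` of norm at most `M`. -/
def OpNormLE {G : Type} [Group G] (f : G →₀ ℂ) (M : ℝ) : Prop :=
  ∀ ξ : G → ℂ, Summable (fun x => ‖ξ x‖ ^ 2) →
    Summable (fun x => ‖conv f ξ x‖ ^ 2) ∧
      Real.sqrt (∑' x, ‖conv f ξ x‖ ^ 2) ≤ M * Real.sqrt (∑' x, ‖ξ x‖ ^ 2)

/-- The estimate `‖f‖_op ≤ C ‖f w(ℓ)‖_2` with a constant `C`, for all `f` in the group algebra. -/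
def HasDecay {G : Type} [Group G] (S : Set G) (w : ℕ → ℝ) : Prop :=
  ∃ C : ℝ, ∀ f : G →₀ ℂ, OpNormLE f (C * weightedNorm S w f)

/-- Property RD with respect to the word length of `S`: the estimate holds with a weight
`(1 + ℓ)^s`. -/
def HasRD {G : Type} [Group G] (S : Set G) : Prop :=
  ∃ s : ℝ, 0 ≤ s ∧ HasDecay S (fun r => (1 + (r : ℝ)) ^ s)

/-- The weight `w` is subexponential: `|w(r)| ≤ D e^{ε r}` for every `ε > 0`. -/
def Subexponential (w : ℕ → ℝ) : Prop :=
  ∀ ε : ℝ, 0 < ε → ∃ D : ℝ, ∀ r : ℕ, |w r| ≤ D * Real.exp (ε * r)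

open Pool.Agent.KS6_1.RD Pool.Agent.Helper23.Haagerup

section wl

variable {G : Type} [Group G] {S : Set G}

lemma wl_le {n : ℕ} {g : G} (h : IsProd S n g) : wordLength S g ≤ n := Nat.sInf_le h

lemma wl_isProd (hS : IsFinSymmGen S) (g : G) : IsProd S (wordLength S g) g :=
  Nat.sInf_mem (s := {n : ℕ | ∃ l : List G, l.length = n ∧ (∀ a ∈ l, a ∈ S) ∧ l.prod = g})
    (exists_isProd hS.2.1 hS.2.2 g)

lemma wl_mul (hS : IsFinSymmGen S) (g h : G) :
    wordLength S (g * h) ≤ wordLength S g + wordLength S h :=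
  wl_le ((wl_isProd hS g).mul (wl_isProd hS h))

lemma wl_one : wordLength S (1 : G) = 0 := by
  have := wl_le (S := S) (g := (1 : G)) (n := 0) ⟨[], rfl, by simp, rfl⟩
  omega

lemma wl_list (hS : IsFinSymmGen S) (M : ℕ) (l : List G) (h : ∀ a ∈ l, wordLength S a ≤ M) :
    wordLength S l.prod ≤ l.length * M := by
  induction l with
  | nil => simp [wl_one]
  | cons a l ih =>
    rw [List.prod_cons, List.length_cons]
    have h1 := wl_mul hS a l.prod
    have h2 := h a (by simp)
    have h3 := ih (fun b hb => h b (by simp [hb]))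
    calc _ ≤ M + l.length * M := by omega
      _ = (l.length + 1) * M := by ring

end wl

/-- comparison of the intrinsic length with any word length on `Gam X` -/
lemma LL_le {X : Type} [DecidableEq X] (S : Set (Gam X)) (hS : IsFinSymmGen S) :
    ∃ M : ℕ, ∀ x : Gam X, LL x ≤ wordLength S x * M := by
  classical
  refine ⟨hS.1.toFinset.sup LL, fun x => ?_⟩
  obtain ⟨l, h1, h2, h3⟩ := wl_isProd hS x
  rw [← h1, ← h3]
  clear h1 h3
  induction l with
  | nil => simp [LL_one]
  | cons a l ih =>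
    rw [List.prod_cons, List.length_cons]
    have e1 := LL_mul a l.prod
    have e2 : LL a ≤ hS.1.toFinset.sup LL :=
      Finset.le_sup (f := LL) (hS.1.mem_toFinset.mpr (h2 a (by simp)))
    have e3 := ih (fun b hb => h2 b (by simp [hb]))
    calc _ ≤ hS.1.toFinset.sup LL + l.length * hS.1.toFinset.sup LL := by omega
      _ = _ := by ring

/-- the base group has property RD for every finite symmetric generating set -/
theorem gam_RD {X : Type} (S : Set (Gam X)) (hS : IsFinSymmGen S) : HasRD S := by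
  classical
  obtain ⟨M, hM⟩ := LL_le S hS
  refine ⟨6, by norm_num, 2 * ((M : ℝ) + 1) ^ 6, ?_⟩
  intro f ξ hξ
  set W := Real.sqrt (∑ y ∈ f.support, ‖f y‖ ^ 2 * ((LL y : ℝ) + 1) ^ (2 * (4 + 2))) with hW
  have hW1 : W ≤ ((M : ℝ) + 1) ^ 6 * weightedNorm S (fun r => (1 + (r : ℝ)) ^ (6 : ℝ)) f := by
    rw [hW, weightedNorm, ← Real.sqrt_sq (show (0 : ℝ) ≤ ((M : ℝ) + 1) ^ 6 by positivity),
      ← Real.sqrt_mul (by positivity)]
    apply Real.sqrt_le_sqrt
    rw [Finset.mul_sum]
    refine Finset.sum_le_sum fun y _ => ?_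
    have h1 : (LL y : ℝ) ≤ (wordLength S y : ℝ) * M := by exact_mod_cast hM y
    have h2 : (LL y : ℝ) + 1 ≤ ((M : ℝ) + 1) * (1 + (wordLength S y : ℝ)) := by
      have : (0 : ℝ) ≤ M := Nat.cast_nonneg _
      have : (0 : ℝ) ≤ wordLength S y := Nat.cast_nonneg _
      nlinarith
    have h3 : ((1 + (wordLength S y : ℝ)) ^ (6 : ℝ)) ^ 2 = (1 + (wordLength S y : ℝ)) ^ 12 := by
      have : (6 : ℝ) = ((6 : ℕ) : ℝ) := by norm_num
      rw [this, Real.rpow_natCast, ← pow_mul]
    rw [h3]
    calc ‖f y‖ ^ 2 * ((LL y : ℝ) + 1) ^ (2 * (4 + 2))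
        ≤ ‖f y‖ ^ 2 * (((M : ℝ) + 1) * (1 + (wordLength S y : ℝ))) ^ (2 * (4 + 2)) := by
          gcongr
      _ = _ := by ring
  set X := ∑' x, ‖ξ x‖ ^ 2 with hX
  have hX0 : 0 ≤ X := tsum_nonneg fun _ => by positivity
  have key : ∀ E : Finset (Gam _), ∑ x ∈ E, ‖conv f ξ x‖ ^ 2 ≤ (2 * W) ^ 2 * X := by
    intro E
    obtain ⟨B, hB⟩ := rd_core LL 4 tri_gam f ξ E
    have hBX : Real.sqrt (∑ y ∈ B, ‖ξ y‖ ^ 2) ≤ Real.sqrt X := by
      apply Real.sqrt_le_sqrt
      exact hξ.sum_le_tsum B (fun _ _ => by positivity)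
    have h1 : Real.sqrt (∑ x ∈ E, ‖conv f ξ x‖ ^ 2) ≤ 2 * W * Real.sqrt X := by
      refine le_trans hB ?_
      apply mul_le_mul_of_nonneg_left hBX
      positivity
    have h0 : 0 ≤ ∑ x ∈ E, ‖conv f ξ x‖ ^ 2 := Finset.sum_nonneg fun _ _ => by positivity
    calc ∑ x ∈ E, ‖conv f ξ x‖ ^ 2 = Real.sqrt (∑ x ∈ E, ‖conv f ξ x‖ ^ 2) ^ 2 :=
          (Real.sq_sqrt h0).symm
      _ ≤ (2 * W * Real.sqrt X) ^ 2 := by
          apply pow_le_pow_left₀ (Real.sqrt_nonneg _) h1
      _ = (2 * W) ^ 2 * X := by rw [mul_pow, Real.sq_sqrt hX0]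
  have hsum : Summable (fun x => ‖conv f ξ x‖ ^ 2) :=
    summable_of_sum_le (fun _ => by positivity) key
  refine ⟨hsum, ?_⟩
  have h2 : ∑' x, ‖conv f ξ x‖ ^ 2 ≤ (2 * W) ^ 2 * X := hsum.tsum_le_of_sum_le key
  calc Real.sqrt (∑' x, ‖conv f ξ x‖ ^ 2) ≤ Real.sqrt ((2 * W) ^ 2 * X) := Real.sqrt_le_sqrt h2
    _ = 2 * W * Real.sqrt X := by
        rw [Real.sqrt_mul (by positivity), Real.sqrt_sq (by positivity)]
    _ ≤ 2 * (((M : ℝ) + 1) ^ 6 * weightedNorm S (fun r => (1 + (r : ℝ)) ^ (6 : ℝ)) f) *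
          Real.sqrt X := by
        gcongr
    _ = _ := by ring

/-- A decay estimate bounds the order of a finite subgroup by the weights of its elements. -/
lemma finite_subgroup_bound {Λ : Type} [Group Λ] (T : Set Λ) (w : ℕ → ℝ) (C : ℝ)
    (hC : ∀ f : Λ →₀ ℂ, OpNormLE f (C * weightedNorm T w f))
    {H : Type} [Group H] [Fintype H] (φ : H →* Λ) (hφ : Function.Injective φ) (B : ℝ)
    (hB : ∀ a, |w (wordLength T (φ a))| ≤ B) :
    (Fintype.card H : ℝ) ≤ C ^ 2 * B ^ 2 := by
  classical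
  set N : ℝ := (Fintype.card H : ℝ) with hN
  have hNpos : 0 < N := by
    rw [hN]; exact_mod_cast Fintype.card_pos
  have hB0 : 0 ≤ B := (abs_nonneg _).trans (hB 1)
  set MM : Finset Λ := Finset.univ.map ⟨φ, hφ⟩ with hMM
  have hcard : ((MM.card : ℕ) : ℝ) = N := by
    rw [hMM, Finset.card_map, hN]; rfl
  have hmem : ∀ x, x ∈ MM ↔ ∃ a, φ a = x := by
    intro x
    rw [hMM, Finset.mem_map]
    constructor
    · rintro ⟨a, _, h⟩; exact ⟨a, h⟩
    · rintro ⟨a, h⟩; exact ⟨a, Finset.mem_univ _, h⟩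
  have hclosed : ∀ a ∈ MM, ∀ x ∈ MM, a⁻¹ * x ∈ MM := by
    intro a ha x hx
    rw [hmem] at *
    obtain ⟨u, rfl⟩ := ha
    obtain ⟨v, rfl⟩ := hx
    exact ⟨u⁻¹ * v, by simp⟩
  let f : Λ →₀ ℂ :=
    { support := MM
      toFun := fun x => if x ∈ MM then 1 else 0
      mem_support_toFun := by intro a; simp }
  have hfsupp : f.support = MM := rfl
  have hfval : ∀ x ∈ MM, f x = 1 := by
    intro x hx
    show (if x ∈ MM then (1 : ℂ) else 0) = 1
    rw [if_pos hx]
  have hfval0 : ∀ x, x ∉ MM → f x = 0 := by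
    intro x hx
    show (if x ∈ MM then (1 : ℂ) else 0) = 0
    rw [if_neg hx]
  have hz : ∀ x ∉ MM, ‖f x‖ ^ 2 = 0 := fun x hx => by rw [hfval0 x hx]; simp
  have hsummable : Summable (fun x => ‖f x‖ ^ 2) := summable_of_ne_finset_zero hz
  have htsum : ∑' x, ‖f x‖ ^ 2 = N := by
    rw [tsum_eq_sum hz, Finset.sum_congr rfl (fun x hx => by rw [hfval x hx])]
    simp [hcard]
  obtain ⟨h1, h2⟩ := hC f f hsummable
  rw [htsum] at h2
  have hconv : ∀ x ∈ MM, conv f f x = (N : ℂ) := by
    intro x hx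
    unfold conv
    rw [hfsupp, Finset.sum_congr rfl (fun y hy => by
      rw [hfval y hy, hfval _ (hclosed y hy x hx)])]
    simp only [mul_one, Finset.sum_const, nsmul_eq_mul]
    rw [← hcard]
    push_cast
    rfl
  have hlow : N ^ 3 ≤ ∑' x, ‖conv f f x‖ ^ 2 := by
    calc N ^ 3 = ∑ x ∈ MM, ‖conv f f x‖ ^ 2 := by
          rw [Finset.sum_congr rfl (fun x hx => by rw [hconv x hx])]
          rw [Finset.sum_const, nsmul_eq_mul, hcard, Complex.norm_real,
            Real.norm_of_nonneg hNpos.le]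
          ring
      _ ≤ _ := h1.sum_le_tsum MM (fun _ _ => by positivity)
  have hw : weightedNorm T w f ^ 2 ≤ N * B ^ 2 := by
    unfold weightedNorm
    rw [Real.sq_sqrt (Finset.sum_nonneg fun _ _ => by positivity), hfsupp]
    calc ∑ g ∈ MM, ‖f g‖ ^ 2 * w (wordLength T g) ^ 2
        ≤ ∑ g ∈ MM, B ^ 2 := by
          refine Finset.sum_le_sum fun g hg => ?_
          rw [hfval g hg]
          obtain ⟨a, rfl⟩ := (hmem g).mp hg
          have h := hB a
          rw [← sq_abs (w (wordLength T (φ a)))]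
          have h0 := abs_nonneg (w (wordLength T (φ a)))
          simp only [norm_one, one_pow, one_mul]
          exact pow_le_pow_left₀ h0 h 2
      _ = _ := by rw [Finset.sum_const, nsmul_eq_mul, hcard]
  have h3 : N ^ 3 ≤ C ^ 2 * (N * B ^ 2) * N := by
    have h4 : Real.sqrt (N ^ 3) ≤ C * weightedNorm T w f * Real.sqrt N :=
      (Real.sqrt_le_sqrt hlow).trans h2
    calc N ^ 3 = Real.sqrt (N ^ 3) ^ 2 := (Real.sq_sqrt (by positivity)).symm
      _ ≤ (C * weightedNorm T w f * Real.sqrt N) ^ 2 :=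
          pow_le_pow_left₀ (Real.sqrt_nonneg _) h4 2
      _ = C ^ 2 * weightedNorm T w f ^ 2 * N := by
          rw [mul_pow, mul_pow, Real.sq_sqrt hNpos.le]
      _ ≤ _ := by gcongr
  have h5 : N * (N * N) ≤ (C ^ 2 * B ^ 2) * (N * N) := by
    calc N * (N * N) = N ^ 3 := by ring
      _ ≤ _ := h3
      _ = _ := by ring
  exact le_of_mul_le_mul_right h5 (by positivity)

/-- the twisted group has no decay estimate with a subexponential weight, for any finite symmetric
generating set -/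
theorem lam_not_decay {X : Type} [AddCommGroup X] [Finite X] [Nontrivial X]
    (T : Set (LamG X)) (hT : IsFinSymmGen T) (w : ℕ → ℝ) (hw : Subexponential w) :
    ¬ HasDecay T w := by
  classical
  have : Fintype X := Fintype.ofFinite X
  rintro ⟨C, hRD⟩
  -- length bound on the finite subgroups
  obtain ⟨M, hM⟩ : ∃ M : ℕ, ∀ t ∈ T0 X, wordLength T t ≤ M :=
    ⟨T0_finite.toFinset.sup (wordLength T), fun t ht =>
      Finset.le_sup (f := wordLength T) (T0_finite.mem_toFinset.mpr ht)⟩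
  have hlen : ∀ n : ℕ, ∀ v, wordLength T (emb (X := X) n v) ≤ (n + n) * M := by
    intro n v
    obtain ⟨l, h1, h2, h3⟩ := emb_isProd n v
    rw [← h3, ← h1]
    exact wl_list hT M l (fun a ha => hM a (h2 a ha))
  set ε : ℝ := Real.log 2 / (8 * ((M : ℝ) + 1)) with hε
  have hlog : 0 < Real.log 2 := Real.log_pos (by norm_num)
  have hεpos : 0 < ε := by positivity
  obtain ⟨D, hD⟩ := hw ε hεpos
  have hD0 : 0 ≤ D := by
    have h := hD 0
    simp only [Nat.cast_zero, mul_zero, Real.exp_zero, mul_one] at h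
    exact (abs_nonneg _).trans h
  have main : ∀ n : ℕ, (2 : ℝ) ^ n ≤ C ^ 2 * (D * Real.exp (ε * ((n + n) * M : ℕ))) ^ 2 := by
    intro n
    have h1 := finite_subgroup_bound T w C hRD (emb (X := X) n) (emb_injective n)
      (D * Real.exp (ε * ((n + n) * M : ℕ))) (by
        intro a
        refine (hD _).trans ?_
        apply mul_le_mul_of_nonneg_left _ hD0
        apply Real.exp_le_exp.mpr
        apply mul_le_mul_of_nonneg_left _ hεpos.le
        exact_mod_cast hlen n a)
    refine le_trans ?_ h1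
    have hc : Fintype.card (Multiplicative (Fin n → X)) = Fintype.card X ^ n := by
      simp
    rw [hc]
    have h2 : 2 ≤ Fintype.card X := Fintype.one_lt_card
    exact_mod_cast Nat.pow_le_pow_left h2 n
  have main2 : ∀ n : ℕ, Real.exp (Real.log 2 / 2 * n) ≤ C ^ 2 * D ^ 2 := by
    intro n
    have h := main n
    have e1 : (2 : ℝ) ^ n = Real.exp (Real.log 2 / 2 * n) * Real.exp (Real.log 2 / 2 * n) := by
      rw [← Real.exp_add]
      have : Real.log 2 / 2 * n + Real.log 2 / 2 * n = n * Real.log 2 := by ring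
      rw [this, Real.exp_nat_mul, Real.exp_log (by norm_num)]
    have e2 : (D * Real.exp (ε * ((n + n) * M : ℕ))) ^ 2 ≤
        D ^ 2 * Real.exp (Real.log 2 / 2 * n) := by
      rw [mul_pow, ← Real.exp_nat_mul]
      apply mul_le_mul_of_nonneg_left _ (by positivity)
      apply Real.exp_le_exp.mpr
      push_cast
      rw [hε]
      have hM0 : (0 : ℝ) ≤ M := Nat.cast_nonneg _
      have hn0 : (0 : ℝ) ≤ n := Nat.cast_nonneg _
      have e3 : 2 * (Real.log 2 / (8 * ((M : ℝ) + 1)) * (((n : ℝ) + n) * M)) =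
          Real.log 2 / 2 * n * (M / (M + 1)) := by
        field_simp
        ring
      rw [e3]
      have e4 : (M : ℝ) / (M + 1) ≤ 1 := by
        rw [div_le_one (by positivity)]; linarith
      calc Real.log 2 / 2 * n * (M / (M + 1)) ≤ Real.log 2 / 2 * n * 1 := by
            apply mul_le_mul_of_nonneg_left e4 (by positivity)
        _ = _ := by ring
    have e5 : Real.exp (Real.log 2 / 2 * n) * Real.exp (Real.log 2 / 2 * n) ≤
        (C ^ 2 * D ^ 2) * Real.exp (Real.log 2 / 2 * n) := by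
      rw [← e1]
      calc (2 : ℝ) ^ n ≤ C ^ 2 * (D * Real.exp (ε * ((n + n) * M : ℕ))) ^ 2 := h
        _ ≤ C ^ 2 * (D ^ 2 * Real.exp (Real.log 2 / 2 * n)) := by
            apply mul_le_mul_of_nonneg_left e2 (by positivity)
        _ = _ := by ring
    exact le_of_mul_le_mul_right e5 (Real.exp_pos _)
  obtain ⟨n, hn⟩ := exists_nat_gt ((C ^ 2 * D ^ 2) / (Real.log 2 / 2))
  have h1 := main2 n
  have h2 := Real.add_one_le_exp (Real.log 2 / 2 * n)
  rw [div_lt_iff₀ (by positivity)] at hn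
  nlinarith

/-- **Property RD is not invariant under isometry of Cayley graphs**, in a strong form.  For every
finite set `X` with at least two elements there are a group `Γ` and a finite symmetric generating
set `S` of `Γ` such that `Γ` has property RD (for all its finite symmetric generating sets) and
such that, for every abelian group structure on `X`, there are a group `Λ` and a finite symmetric
generating set `T` of `Λ` such that the Cayley graphs of `(Γ, S)` and `(Λ, T)` are isomorphic, such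
that the ball of radius `2 n` of `(Λ, T)` contains a subgroup isomorphic to `X ^ n`, for every `n`,
and such that for no finite symmetric generating set of `Λ` and no subexponential weight `w` there
is an estimate `‖f‖_op ≤ C ‖f w(ℓ)‖_2`; in particular `Λ` does not have property RD. -/
theorem result (X : Type) [Finite X] [Nontrivial X] :
    ∃ (Γ : Type) (_ : Group Γ) (S : Set Γ), IsFinSymmGen S ∧
      (∀ S' : Set Γ, IsFinSymmGen S' → HasRD S') ∧
      ∀ _ : AddCommGroup X, ∃ (Λ : Type) (_ : Group Λ) (T : Set Λ), IsFinSymmGen T ∧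
        Nonempty (cayleyGraph S ≃g cayleyGraph T) ∧
        (∀ n : ℕ, ∃ φ : Multiplicative (Fin n → X) →* Λ, Function.Injective φ ∧
          ∀ v, wordLength T (φ v) ≤ 2 * n) ∧
        (∀ T' : Set Λ, IsFinSymmGen T' → ∀ w : ℕ → ℝ, Subexponential w → ¬ HasDecay T' w) ∧
        (∀ T' : Set Λ, IsFinSymmGen T' → ¬ HasRD T') := by
  refine ⟨Gam X, inferInstance, S0 X, ⟨S0_finite, fun _ h => S0_inv h, S0_gen⟩, gam_RD, ?_⟩
  intro inst
  have hdec : ∀ T' : Set (LamG X), IsFinSymmGen T' → ∀ w : ℕ → ℝ, Subexponential w →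
      ¬ HasDecay T' w := fun T' hT' w hw => lam_not_decay T' hT' w hw
  refine ⟨LamG X, inferInstance, T0 X, ⟨T0_finite, fun _ h => T0_inv h, T0_gen⟩,
    ⟨⟨eqv, ?_⟩⟩, ?_, hdec, ?_⟩
  · intro x y
    show (toLam x ≠ toLam y ∧ ((toLam x)⁻¹ * toLam y ∈ T0 X ∨ (toLam y)⁻¹ * toLam x ∈ T0 X)) ↔
      (x ≠ y ∧ (x⁻¹ * y ∈ S0 X ∨ y⁻¹ * x ∈ S0 X))
    rw [← adj_iff, ← adj_iff]
    have : toLam x ≠ toLam y ↔ x ≠ y := eqv.injective.ne_iff
    rw [this]
  · intro n
    refine ⟨emb n, emb_injective n, fun v => ?_⟩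
    have h := wl_le (emb_isProd n v)
    omega
  · rintro T' hT' ⟨s, hs, hd⟩
    refine hdec T' hT' _ ?_ hd
    intro ε hε
    -- polynomial weights are subexponential
    have h := (isLittleO_rpow_exp_pos_mul_atTop s hε).def (c := 1) one_pos
    have h' : ∀ᶠ r : ℕ in Filter.atTop, (1 + (r : ℝ)) ^ s ≤ Real.exp (ε * (1 + r)) := by
      have ht : Filter.Tendsto (fun r : ℕ => 1 + (r : ℝ)) Filter.atTop Filter.atTop :=
        Filter.tendsto_atTop_add_const_left _ _ tendsto_natCast_atTop_atTop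
      filter_upwards [ht.eventually h] with r hr
      rw [one_mul, Real.norm_of_nonneg (by positivity), Real.norm_of_nonneg (by positivity)] at hr
      exact hr
    obtain ⟨R, hR⟩ := Filter.eventually_atTop.mp h'
    refine ⟨max (Real.exp ε) ((1 + (R : ℝ)) ^ s), fun r => ?_⟩
    rw [abs_of_nonneg (by positivity)]
    rcases le_total R r with hr | hr
    · calc (1 + (r : ℝ)) ^ s ≤ Real.exp (ε * (1 + r)) := hR r hr
        _ = Real.exp ε * Real.exp (ε * r) := by rw [← Real.exp_add]; congr 1; ring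
        _ ≤ _ := by
            apply mul_le_mul_of_nonneg_right (le_max_left _ _) (Real.exp_pos _).le
    · calc (1 + (r : ℝ)) ^ s ≤ (1 + (R : ℝ)) ^ s := by
            apply Real.rpow_le_rpow (by positivity) _ hs
            have : (r : ℝ) ≤ R := by exact_mod_cast hr
            linarith
        _ = (1 + (R : ℝ)) ^ s * 1 := (mul_one _).symm
        _ ≤ max (Real.exp ε) ((1 + (R : ℝ)) ^ s) * Real.exp (ε * r) := by
            apply mul_le_mul (le_max_right _ _) _ zero_le_one (by positivity)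
            exact Real.one_le_exp (by positivity)

end Pool.Agent.Results.MP_fb096d_an.AllAbelianTwists
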